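import Pool.Agent.H620R2.GaugeR.R8
import Pool.Agent.H620R2.Gauge2.Null

/-!
# Null sets of gauges which are infinitely often polylogarithmic
-/

set_option autoImplicit false

namespace Pool.Agent.TH683.GP

open Filter MeasureTheory Finset
open Pool.Agent.NPC
open Pool.Agent.H620R2.Gauge

/-- the probability of a cylinder -/
theorem ranO_cyl (m : ℕ) (a : Fin m → Bool) :
    ranO {B : Oracle | ∀ i : Fin m, B (str i) = a i} = (2⁻¹ : ENNReal) ^ m := by
  classical
  set s : Finset (List Bool) := univ.image (fun i : Fin m => str i) with hs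
  set t : List Bool → Set Bool :=
    fun y => if h : idx y < m then {a ⟨idx y, h⟩} else Set.univ with ht
  have htpos : ∀ i : Fin m, t (str i) = {a i} := by
    intro i
    simp only [ht, idx_str, dif_pos i.2]
  have heq : {B : Oracle | ∀ i : Fin m, B (str i) = a i} = Set.pi (s : Set (List Bool)) t := by
    ext B
    rw [Set.mem_pi]
    constructor
    · intro hB y hy
      rw [Finset.mem_coe, hs, Finset.mem_image] at hy
      obtain ⟨i, -, rfl⟩ := hy
      rw [htpos, Set.mem_singleton_iff]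
      exact hB i
    · intro hB i
      have h1 := hB (str i) (by
        rw [Finset.mem_coe, hs, Finset.mem_image]
        exact ⟨i, mem_univ _, rfl⟩)
      rwa [htpos, Set.mem_singleton_iff] at h1
  have h2 : ranO (Set.pi (s : Set (List Bool)) t) = ∏ y ∈ s, coinM (t y) :=
    Measure.infinitePi_pi (fun _ : List Bool => coinM) (s := s) (t := t)
      (fun i _ => MeasurableSet.of_discrete)
  rw [heq, h2, hs, Finset.prod_image (fun i _ j _ h => Fin.ext (str_injective h))]
  rw [Finset.prod_congr rfl (fun i _ => by rw [htpos, coinM_singleton]), Finset.prod_const,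
    Finset.card_univ, Fintype.card_fin]

theorem measurable_cyl (m : ℕ) (a : Fin m → Bool) :
    MeasurableSet {B : Oracle | ∀ i : Fin m, B (str i) = a i} := by
  have : {B : Oracle | ∀ i : Fin m, B (str i) = a i} =
      ⋂ i : Fin m, (fun B : Oracle => B (str i)) ⁻¹' {a i} := by
    ext B
    simp
  rw [this]
  exact MeasurableSet.iInter fun i => measurable_pi_apply _ (MeasurableSet.singleton _)

/-- the number of the prefixes of the elements of an event which depends on the first strings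
only -/
theorem card_prefixes (m : ℕ) (E : Set Oracle)
    (hE : ∀ A B : Oracle, (∀ i < m, A (str i) = B (str i)) → A ∈ E → B ∈ E)
    (P : Finset (Fin m → Bool)) (hP : ∀ a ∈ P, ∃ A ∈ E, ∀ i : Fin m, A (str i) = a i) :
    (P.card : ENNReal) * (2⁻¹ : ENNReal) ^ m ≤ ranO E := by
  have h1 : ranO (⋃ a ∈ P, {B : Oracle | ∀ i : Fin m, B (str i) = a i}) =
      ∑ a ∈ P, ranO {B : Oracle | ∀ i : Fin m, B (str i) = a i} := by
    refine measure_biUnion_finset ?_ (fun a _ => measurable_cyl m a)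
    intro a _ b _ hab
    rw [Function.onFun, Set.disjoint_left]
    intro B hB hB'
    apply hab
    funext i
    rw [← hB i, ← hB' i]
  have h2 : (⋃ a ∈ P, {B : Oracle | ∀ i : Fin m, B (str i) = a i}) ⊆ E := by
    intro B hB
    simp only [Set.mem_iUnion] at hB
    obtain ⟨a, ha, hB⟩ := hB
    obtain ⟨A, hA, hAa⟩ := hP a ha
    refine hE A B (fun i hi => ?_) hA
    rw [hAa ⟨i, hi⟩, ← hB ⟨i, hi⟩]
  refine le_trans (le_of_eq ?_) (measure_mono h2)
  rw [h1, sum_congr rfl (fun a _ => ranO_cyl m a), sum_const, nsmul_eq_mul]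

theorem idx_lt_of_length {y : List Bool} {q : ℕ} (hy : y.length ≤ q) : idx y < 2 ^ (q + 1) - 1 := by
  have h2 := idx_lt y
  have h3 : 2 ^ (y.length + 1) ≤ 2 ^ (q + 1) := Nat.pow_le_pow_right (by norm_num) (by omega)
  omega

/-- Events which happen infinitely often with small probabilities. -/
theorem null_limsup {f : ℕ → ℝ} {C : ℕ}
    (hC : ∀ᶠ N : ℕ in atTop, ∃ N' ≥ N, f N' ≤ (Real.logb 2 N) ^ C)
    (Q : Polynomial ℕ) (hQ : ∀ n, n ≤ Q.eval n) (E : ℕ → Set Oracle)
    (hE : ∀ n, ∀ A B : Oracle, (∀ y : List Bool, y.length ≤ Q.eval n → A y = B y) →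
      A ∈ E n → B ∈ E n)
    (hp : ∀ᶠ n : ℕ in atTop, ranO (E n) ≤
      (2⁻¹ : ENNReal) ^ ((Q.eval n + 1) ^ C + n)) :
    Null f {A | ∃ᶠ n : ℕ in atTop, A ∈ E n} := by
  classical
  intro δ hδ
  obtain ⟨N₁, hN₁⟩ := eventually_atTop.1 hC
  obtain ⟨n₁, hn₁⟩ := eventually_atTop.1 hp
  obtain ⟨n₂, hn₂⟩ : ∃ n₂ : ℕ, (1 / 2 : ℝ) ^ n₂ < δ / 2 :=
    exists_pow_lt_of_lt_one (by positivity) (by norm_num)
  set n₀ := max (max n₁ N₁) n₂ with hn₀
  have hm : ∀ n, n₀ ≤ n → ∃ m ≥ 2 ^ (Q.eval n + 1), f m ≤ (((Q.eval n : ℕ) : ℝ) + 1) ^ C := by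
    intro n hn
    have h1 : N₁ ≤ 2 ^ (Q.eval n + 1) := by
      have h2 := hQ n
      have h3 : Q.eval n + 1 < 2 ^ (Q.eval n + 1) := Nat.lt_two_pow_self
      have h4 := le_max_left (max n₁ N₁) n₂
      have h5 := le_max_right n₁ N₁
      omega
    obtain ⟨m, hm, hf⟩ := hN₁ _ h1
    refine ⟨m, hm, hf.trans (le_of_eq ?_)⟩
    congr 1
    push_cast
    rw [Real.logb_pow, Real.logb_self_eq_one (by norm_num), mul_one]
    push_cast
    rfl
  choose! m hm hfm using hm
  set S : ℕ → Set (List Bool) := fun k =>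
    (fun a : Fin (m (n₀ + k)) → Bool => List.ofFn a) ''
      {a | ∃ A ∈ E (n₀ + k), ∀ i : Fin (m (n₀ + k)), A (str i) = a i} with hS
  refine ⟨⋃ k, S k, ?_, ?_⟩
  · intro A hA
    obtain ⟨n, hn, hAn⟩ := (frequently_atTop.1 hA) n₀
    obtain ⟨k, rfl⟩ := Nat.exists_eq_add_of_le hn
    refine ⟨List.ofFn (fun i : Fin (m (n₀ + k)) => A (str i)), ?_, ?_⟩
    · rw [Set.mem_iUnion]
      exact ⟨k, _, ⟨A, hAn, fun i => rfl⟩, rfl⟩
    · intro i hi
      rw [List.getElem_ofFn]
  · have hk : ∀ k, ∑' σ : S k, ENNReal.ofReal (2 ^ (f σ.1.length - σ.1.length)) ≤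
        (2⁻¹ : ENNReal) ^ (n₀ + k) := by
      intro k
      set n := n₀ + k with hn
      have hinj : Set.InjOn (fun a : Fin (m n) → Bool => List.ofFn a)
          {a | ∃ A ∈ E n, ∀ i : Fin (m n), A (str i) = a i} :=
        fun a _ b _ h => List.ofFn_injective h
      rw [hS]
      dsimp only
      rw [tsum_image (fun σ : List Bool => ENNReal.ofReal (2 ^ (f σ.length - σ.length))) hinj]
      simp only [List.length_ofFn]
      rw [tsum_fintype, Finset.sum_const, nsmul_eq_mul, Finset.card_univ]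
      set P : Finset (Fin (m n) → Bool) :=
        univ.filter (fun a => ∃ A ∈ E n, ∀ i : Fin (m n), A (str i) = a i) with hP
      have h1 : Fintype.card {a : Fin (m n) → Bool | ∃ A ∈ E n, ∀ i : Fin (m n),
          A (str i) = a i} = P.card := by
        rw [hP, ← Fintype.card_subtype]
        rfl
      rw [h1]
      have h2 := card_prefixes (m n) (E n) (by
        intro A B hAB hA
        refine hE n A B (fun y hy => ?_) hA
        have h3 := idx_lt_of_length hy
        have h4 := hm n (by omega)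
        have h5 := hAB (idx y) (by omega)
        rwa [str_idx] at h5) P (fun a ha => (mem_filter.1 ha).2)
      have h3 : (2 : ℝ) ^ (f (m n) - (m n : ℝ)) = 2 ^ (-(m n : ℝ)) * 2 ^ f (m n) := by
        rw [← Real.rpow_add (by norm_num)]; congr 1; ring
      have h4 : ENNReal.ofReal (2 ^ (-(m n : ℝ))) = (2⁻¹ : ENNReal) ^ (m n) := by
        rw [Real.rpow_neg (by norm_num), Real.rpow_natCast,
          ENNReal.ofReal_inv_of_pos (by positivity), ENNReal.ofReal_pow (by norm_num)]
        rw [ENNReal.inv_pow]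
        simp
      rw [h3, ENNReal.ofReal_mul (by positivity), h4, ← mul_assoc]
      have h5 : ENNReal.ofReal (2 ^ f (m n)) ≤ 2 ^ ((Q.eval n + 1) ^ C) := by
        have h6 : (2 : ℝ) ^ f (m n) ≤ 2 ^ ((Q.eval n + 1) ^ C) := by
          rw [← Real.rpow_natCast]
          apply Real.rpow_le_rpow_of_exponent_le (by norm_num)
          push_cast
          exact hfm n (by omega)
        refine (ENNReal.ofReal_le_ofReal h6).trans (le_of_eq ?_)
        rw [ENNReal.ofReal_pow (by norm_num)]
        simp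
      have h6 := hn₁ n (by omega)
      calc (P.card : ENNReal) * (2⁻¹ : ENNReal) ^ (m n) * ENNReal.ofReal (2 ^ f (m n))
          ≤ (2⁻¹ : ENNReal) ^ ((Q.eval n + 1) ^ C + n) * 2 ^ ((Q.eval n + 1) ^ C) :=
            mul_le_mul' (h2.trans h6) h5
        _ = (2⁻¹ : ENNReal) ^ n := by
            rw [pow_add, mul_right_comm, ← mul_pow, ENNReal.inv_mul_cancel (by norm_num)
              (by norm_num), one_pow, one_mul]
    refine (ENNReal.tsum_iUnion_le_tsum (fun σ : List Bool =>
      ENNReal.ofReal (2 ^ (f σ.length - σ.length))) S).trans ?_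
    refine (ENNReal.tsum_le_tsum hk).trans ?_
    simp only [pow_add]
    rw [ENNReal.tsum_mul_left, ENNReal.tsum_geometric]
    have h1 : (1 - 2⁻¹ : ENNReal)⁻¹ = 2 := by
      rw [ENNReal.one_sub_inv_two, inv_inv]
    rw [h1]
    have h2 : (2⁻¹ : ENNReal) ^ n₀ ≤ ENNReal.ofReal (δ / 2) := by
      have h3 : (2⁻¹ : ENNReal) ^ n₀ = ENNReal.ofReal ((1 / 2) ^ n₀) := by
        rw [ENNReal.ofReal_pow (by norm_num), one_div, ENNReal.ofReal_inv_of_pos (by norm_num)]
        simp
      rw [h3]
      apply ENNReal.ofReal_le_ofReal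
      refine le_trans ?_ hn₂.le
      exact pow_le_pow_of_le_one (by norm_num) (by norm_num) (le_max_right _ _)
    calc (2⁻¹ : ENNReal) ^ n₀ * 2 ≤ ENNReal.ofReal (δ / 2) * 2 := by gcongr
      _ = ENNReal.ofReal δ := by
        rw [show (2 : ENNReal) = ENNReal.ofReal 2 by simp, ← ENNReal.ofReal_mul (by positivity)]
        congr 1
        ring

end Pool.Agent.TH683.GP
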