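import Pool.Agent.TH683.GP.Cover
import Pool.Agent.W900.RB.Bpp

/-!
# The oracles which separate `P` and `BPP`: null sets
-/

set_option autoImplicit false

namespace Pool.Agent.TH683.GP

open Filter MeasureTheory Finset
open Pool.Agent.NPC Pool.Agent.H622R2
open Pool.Agent.H620R2.Gauge hiding smp
open Pool.Agent.H628R3.RO (randomOracle)
open Pool.Agent.W900 Pool.Agent.W900.RB

/-- a quarter of the number of samples -/
noncomputable def tauG (q : Polynomial ℕ) (C : ℕ) : Polynomial ℕ :=
  (q + Polynomial.X + Polynomial.C 2) ^ C + Polynomial.X + Polynomial.C 1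

theorem eval_tauG (q : Polynomial ℕ) (C n : ℕ) :
    (tauG q C).eval n = (q.eval n + n + 2) ^ C + n + 1 := by
  unfold tauG
  simp only [Polynomial.eval_pow, Polynomial.eval_add, Polynomial.eval_X, Polynomial.eval_C]

/-- the bad events for an algorithm and its coins -/
noncomputable def EB (C : ℕ) (θ : Alg × Polynomial ℕ) (n : ℕ) : Set Oracle :=
  BadR (fun A r x => θ.1.out A (pairBits r x) = some [true]) n ((qPol θ.1 θ.2).eval n)
    (θ.2.eval n) 0 ((tauG (qPol θ.1 θ.2) C).eval n)

theorem EB_local (C : ℕ) (θ : Alg × Polynomial ℕ) (n : ℕ) (A B : Oracle)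
    (h : ∀ y : List Bool, y.length ≤ (qPol θ.1 θ.2 + Polynomial.X + Polynomial.C 1).eval n →
      A y = B y) (hA : A ∈ EB C θ n) : B ∈ EB C θ n := by
  classical
  have hev : (qPol θ.1 θ.2 + Polynomial.X + Polynomial.C 1).eval n =
      (qPol θ.1 θ.2).eval n + n + 1 := by simp
  rw [hev] at h
  obtain ⟨x, A', b, hx, hd, hr, hτ⟩ := hA
  refine ⟨x, A', b, hx, ?_, hr, ?_⟩
  · have h1 : CH.dist B A' ((qPol θ.1 θ.2).eval n) = CH.dist A A' ((qPol θ.1 θ.2).eval n) := by
      unfold CH.dist
      congr 1
      ext y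
      simp only [Set.mem_ofPred_eq]
      constructor
      · rintro ⟨h8, h9⟩
        exact ⟨h8, by rw [h y (by omega)]; exact h9⟩
      · rintro ⟨h8, h9⟩
        exact ⟨h8, by rw [← h y (by omega)]; exact h9⟩
    rw [h1]
    exact hd
  · have h1 : ∀ i, sample B ((qPol θ.1 θ.2).eval n) n (θ.2.eval n) i =
        sample A ((qPol θ.1 θ.2).eval n) n (θ.2.eval n) i := by
      intro i
      unfold sample
      congr 1
      funext j
      exact (h _ (by rw [length_smp]; omega)).symm
    simp only [h1]
    convert hτ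

/-- The oracles which separate `P` and `BPP`. -/
theorem null_bpp {f : ℕ → ℝ} (hf : Cond1 f) :
    Null f {A : Oracle | ∃ L, IsBPP A L ∧ ¬ IsP A L} := by
  classical
  obtain ⟨C, hC⟩ := hf
  have hc := CC.poly_countable
  have h1 : ∀ θ : Alg × Polynomial ℕ, Null f {A | ∃ᶠ n : ℕ in atTop, A ∈ EB C θ n} := by
    rintro ⟨M, p⟩
    refine null_limsup hC (qPol M p + Polynomial.X + Polynomial.C 1) (fun n => ?_)
      (EB C (M, p)) (EB_local C (M, p)) ?_
    · have := qPol_ge M p n
      simp only [Polynomial.eval_add, Polynomial.eval_X, Polynomial.eval_C]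
      omega
    · filter_upwards [H529R3.Lev.poly_le_two_pow (Polynomial.C 4 * tauG (qPol M p) C * p)]
        with n hn
      have hn' : 4 * (tauG (qPol M p) C).eval n * p.eval n ≤ 2 ^ n := by simpa using hn
      have h2 := badR_le (Acc := fun A r x => M.out A (pairBits r x) = some [true]) (n := n)
        (q := (qPol M p).eval n) (p := p.eval n) (K := 0) (τ := (tauG (qPol M p) C).eval n) (by
          intro A A' r x hx hr h
          rw [qPol_local M p n A A' r x hx hr h]) hn'
      refine (le_of_eq rfl).trans (h2.trans ?_)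
      have hev : (qPol M p + Polynomial.X + Polynomial.C 1).eval n + 1 =
          (qPol M p).eval n + n + 2 := by simp
      rw [hev, eval_tauG, mul_zero, add_zero]
      set R := ((qPol M p).eval n + n + 2) ^ C with hR
      have h3 : (2 : ℝ) ^ (n + 1) / 2 ^ (4 * (R + n + 1)) ≤ (1 / 2) ^ (R + n) := by
        rw [div_le_iff₀ (by positivity)]
        have h4 : (1 / 2 : ℝ) ^ (R + n) * 2 ^ (4 * (R + n + 1)) =
            2 ^ (4 * (R + n + 1) - (R + n)) := by
          rw [pow_sub₀ _ (by norm_num) (by omega), one_div, inv_pow]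
          ring
        rw [h4]
        exact pow_le_pow_right₀ (by norm_num) (by omega)
      refine (ENNReal.ofReal_le_ofReal h3).trans (le_of_eq ?_)
      rw [ENNReal.ofReal_pow (by norm_num)]
      congr 1
      rw [one_div, ENNReal.ofReal_inv_of_pos (by norm_num)]
      simp
  refine (null_iUnion _ h1).mono ?_
  rintro A ⟨L, ⟨V, p, ⟨M, hM⟩, hL⟩, hP⟩
  rw [Set.mem_iUnion]
  refine ⟨(M, p), ?_⟩
  show ∃ᶠ n : ℕ in atTop, A ∈ EB C (M, p) n
  by_contra hcon
  rw [not_frequently] at hcon
  apply hP
  refine isP_of_votes (V := V) ⟨M, hM⟩ (qPol M p) p (tauG (qPol M p) C) ?_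
  filter_upwards [hcon, eventually_ge_atTop 6] with n h1 hn x hx
  by_contra h2
  rw [not_lt] at h2
  apply h1
  have h3 : ∀ z, (M.out A z = some [true] ↔ V z = [true]) := by
    intro z
    rw [hM z, Option.some.injEq]
  refine ⟨x, A, x ∈ L, hx, ?_, ?_, ?_⟩
  · unfold CH.dist
    simp
  · simp only [h3]
    rw [Nat.card_eq_fintype_card, Fintype.card_subtype]
    have h4 := hL x
    rw [hx] at h4
    unfold accPr at h4
    rw [Nat.card_eq_fintype_card, Fintype.card_subtype] at h4
    have h5 := card_filter_add_card_filter_not (s := (univ : Finset (Fin (p.eval n) → Bool)))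
      (fun w => V (pairBits (List.ofFn w) x) = [true])
    rw [card_univ, Fintype.card_fun, Fintype.card_bool, Fintype.card_fin] at h5
    have h6 : (256 : ℝ) ≤ 2 ^ (n + 2) := by
      have : (2 : ℝ) ^ 8 ≤ 2 ^ (n + 2) := pow_le_pow_right₀ (by norm_num) (by omega)
      linarith [show (2 : ℝ) ^ 8 = 256 by norm_num]
    have h7 : (0 : ℝ) < 2 ^ p.eval n := by positivity
    by_cases hxL : x ∈ L
    · have h8 := h4.1 hxL
      have h9 : (univ.filter fun r : Fin (p.eval n) → Bool =>
          ¬ (V (pairBits (List.ofFn r) x) = [true] ↔ x ∈ L)) =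
          univ.filter fun r : Fin (p.eval n) → Bool => ¬ V (pairBits (List.ofFn r) x) = [true] := by
        ext r
        simp [hxL]
      rw [h9]
      rw [le_div_iff₀ h7] at h8
      have h10 : ((univ.filter fun r : Fin (p.eval n) → Bool =>
          V (pairBits (List.ofFn r) x) = [true]).card : ℝ) +
          ((univ.filter fun r : Fin (p.eval n) → Bool =>
          ¬ V (pairBits (List.ofFn r) x) = [true]).card : ℝ) = 2 ^ p.eval n := by
        exact_mod_cast h5
      have h11 : (256 : ℝ) * ((univ.filter fun r : Fin (p.eval n) → Bool =>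
          ¬ V (pairBits (List.ofFn r) x) = [true]).card : ℝ) ≤ 2 ^ p.eval n := by
        have h12 : ((univ.filter fun r : Fin (p.eval n) → Bool =>
            ¬ V (pairBits (List.ofFn r) x) = [true]).card : ℝ) ≤
            1 / 2 ^ (n + 2) * 2 ^ p.eval n := by linarith
        calc (256 : ℝ) * _ ≤ 2 ^ (n + 2) * (1 / 2 ^ (n + 2) * 2 ^ p.eval n) := by
              refine mul_le_mul h6 h12 (by positivity) (by positivity)
          _ = 2 ^ p.eval n := by
              field_simp
      exact_mod_cast h11
    · have h8 := h4.2 hxL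
      have h9 : (univ.filter fun r : Fin (p.eval n) → Bool =>
          ¬ (V (pairBits (List.ofFn r) x) = [true] ↔ x ∈ L)) =
          univ.filter fun r : Fin (p.eval n) → Bool => V (pairBits (List.ofFn r) x) = [true] := by
        ext r
        simp [hxL]
      rw [h9]
      rw [div_le_iff₀ h7] at h8
      have h11 : (256 : ℝ) * ((univ.filter fun r : Fin (p.eval n) → Bool =>
          V (pairBits (List.ofFn r) x) = [true]).card : ℝ) ≤ 2 ^ p.eval n := by
        calc (256 : ℝ) * _ ≤ 2 ^ (n + 2) * (1 / 2 ^ (n + 2) * 2 ^ p.eval n) := by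
              refine mul_le_mul h6 h8 (by positivity) (by positivity)
          _ = 2 ^ p.eval n := by
              field_simp
      exact_mod_cast h11
  · dsimp only
    simp only [h3]
    refine le_trans ?_ h2
    omega

end Pool.Agent.TH683.GP
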