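import Pool.Agent.TH683.GP.NonNull
import Pool.Agent.TH683.GP.NullBPP
import Pool.Agent.TH683.RB.Changed
import Pool.Agent.H620R2.GaugeX.KeyX
import Pool.Agent.H620R2.Gauge.NonNull

/-!
# Gauge thresholds: both directions
-/

set_option autoImplicit false

namespace Pool.Agent.TH683.GP

open Filter MeasureTheory
open Pool.Agent.NPC Pool.Agent.H622R2
open Pool.Agent.H620R2.Gauge hiding smp
open Pool.Agent.W900 Pool.Agent.W900.RB Pool.Agent.TH683.RB

theorem keyRP (f : ℕ → ℝ) (X : Set Oracle)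
    (h1 : ∀ A : Oracle, (∃ L, IsRP A L ∧ ¬ IsNP A Lᶜ) → A ∈ X)
    (h2 : ∀ A ∈ X, ∃ L, IsBPP A L ∧ ¬ IsP A L) : Null f X ↔ Cond1 f := by
  constructor
  · intro hn
    by_contra hcon
    exact not_null_rp hcon X h1 hn
  · intro hf
    exact (null_bpp hf).mono h2

theorem keyZPP (f : ℕ → ℝ) (X : Set Oracle)
    (h1 : ∀ A : Oracle, (∃ L, IsZPP A L ∧ ¬ IsP A L) → A ∈ X)
    (h2 : ∀ A ∈ X, ∃ L, IsBPP A L ∧ ¬ IsP A L) : Null f X ↔ Cond1 f := by
  constructor
  · intro hn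
    by_contra hcon
    exact not_null_zpp hcon X h1 hn
  · intro hf
    exact (null_bpp hf).mono h2

theorem Null_anti {f f' : ℕ → ℝ} (h : ∀ N, f' N ≤ f N) {X : Set Oracle} (hX : Null f X) :
    Null f' X := by
  intro δ hδ
  obtain ⟨S, hS, hsum⟩ := hX δ hδ
  refine ⟨S, hS, (ENNReal.tsum_le_tsum fun σ => ?_).trans hsum⟩
  apply ENNReal.ofReal_le_ofReal
  apply Real.rpow_le_rpow_of_exponent_le (by norm_num)
  linarith [h σ.1.length]

/-- a smaller gauge which is subexponential -/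
theorem exists_minG {f : ℕ → ℝ} (hf : ¬ Cond1 f) : ∃ f' : ℕ → ℝ, (∀ N, f' N ≤ f N) ∧
    ¬ Cond1 f' ∧ Cond f' := by
  have hf' : ∀ C : ℕ, ∃ᶠ N : ℕ in atTop, ∀ N' ≥ N, (Real.logb 2 N) ^ C < f N' := by
    unfold Cond1 at hf
    push Not at hf
    exact hf
  refine ⟨fun N => min (f N) (qp (Nat.log 2 N)), fun N => min_le_left _ _, ?_, ?_⟩
  · unfold Cond1
    push Not
    intro C
    have h1 := tendsto_log.eventually ((qp_super (2 * C)).and (eventually_ge_atTop 2))
    refine ((hf' C).and_eventually (h1.and (eventually_ge_atTop 1))).mono ?_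
    rintro N ⟨h2, ⟨h3, h4⟩, h5⟩ N' hN'
    refine lt_min (h2 N' hN') (lt_of_le_of_lt ?_ (h3 (Nat.log 2 N') (Nat.log_mono_right hN')))
    set n := Nat.log 2 N with hn
    have h6 : Real.logb 2 N ≤ 2 * (n : ℝ) := by
      have h7 : (N : ℝ) ≤ 2 ^ (n + 1) := by
        exact_mod_cast (Nat.lt_pow_succ_log_self (by norm_num) N).le
      have h8 : Real.logb 2 N ≤ (n : ℝ) + 1 := by
        rw [Real.logb_le_iff_le_rpow (by norm_num) (by exact_mod_cast h5)]
        refine h7.trans (le_of_eq ?_)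
        rw [← Real.rpow_natCast]
        push_cast
        rfl
      have h9 : (1 : ℝ) ≤ n := by
        have : 1 ≤ n := by omega
        exact_mod_cast this
      linarith
    have h7 : 0 ≤ Real.logb 2 N := Real.logb_nonneg (by norm_num) (by exact_mod_cast h5)
    have h8 : (2 : ℝ) ≤ n := by exact_mod_cast h4
    calc (Real.logb 2 N) ^ C ≤ (2 * (n : ℝ)) ^ C := by gcongr
      _ ≤ ((n : ℝ) * n) ^ C := by gcongr
      _ = (n : ℝ) ^ (2 * C) := by rw [← pow_two, ← pow_mul]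
  · intro ε hε
    refine Eventually.frequently ?_
    filter_upwards [tendsto_log.eventually (qp_low hε), eventually_ge_atTop 1] with N h1 h2
    refine (min_le_right _ _).trans (h1.trans ?_)
    apply Real.rpow_le_rpow_of_exponent_le (by norm_num)
    have h3 : (Nat.log 2 N : ℝ) ≤ Real.logb 2 N := Real.natLog_le_logb N 2
    gcongr

open Classical in
/-- Oracles with `NEXP ⊆ BPP` and `BPP ⊄ NP`. -/
theorem not_null_nx {f : ℕ → ℝ} (hf : ¬ Cond f) (X : Set Oracle)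
    (hX : ∀ A : Oracle, (∀ L, IsNEXP A L → IsBPP A L) → (∃ L, IsBPP A L ∧ ¬ IsNP A L) →
      A ∈ X) : ¬ Null f X := by
  have hcount := CC.poly_countable
  obtain ⟨al, hal⟩ := exists_alg
  obtain ⟨pl, hpl⟩ := exists_surjective_nat (Polynomial ℕ)
  have h2 : Countable Alg := inferInstance
  obtain ⟨u, hu⟩ := exists_surjective_nat (Option (Alg × Polynomial ℕ))
  set M : ℕ → Alg := fun k => al (Nat.unpair k).1 with hMd
  set p : ℕ → Polynomial ℕ := fun k => pl (Nat.unpair k).2 with hpd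
  obtain ⟨n, hn, hn2⟩ := Filter.extraction_forall_of_eventually
    (P := fun j m => ((M j).p.comp (cl (p j))).eval m ≤ 2 ^ m)
    (fun j => H529R3.Lev.poly_le_two_pow _)
  choose rd hrd using QN_local (al := M) (pl := p) hn2
  obtain ⟨K, hK⟩ := exists_const hf
  set R : ℕ → Polynomial ℕ := fun e => (Polynomial.X + Polynomial.C (e + 1)) ^ K with hR
  have hRe : ∀ e n, (n + e + 1) ^ K ≤ (R e).eval n := by
    intro e n
    rw [hR]
    simp only [Polynomial.eval_pow, Polynomial.eval_add, Polynomial.eval_X, Polynomial.eval_C]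
    rw [add_assoc]
  obtain ⟨c, hc⟩ := hK R hRe
  obtain ⟨Φ, hΦ⟩ := exists_stageN R (fun e => rd (u e)) (fun e x A => QN M p n (u e) x A)
    (fun e x A => hrd (u e) x A)
  refine not_null_of f Set.univ (by rw [measure_univ]; exact one_pos) Φ
    {y : List Bool | ∃ e z, y = code R e z} ?_ c hc X ?_
  · intro B y hy
    exact (hΦ B).1 y fun e z h => hy ⟨e, z, h⟩
  intro O _
  apply hX
  · rintro L ⟨V, q, ⟨M', hM'⟩, hV⟩
    obtain ⟨e, he⟩ := hu (some (M', q))
    have h4 := isBPP_of_code R (fun e => rd (u e)) (Φ O) e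
      {x | QN M p n (u e) x (Φ O)} (fun x => (hΦ O).2 e x)
    have h5 : L = {x | QN M p n (u e) x (Φ O)} := by
      ext x
      rw [hV x, he]
      simp only [Set.mem_ofPred_eq, QN, hM', Option.some.injEq]
    rw [h5]
    exact h4
  · obtain ⟨e, he⟩ := hu none
    have h4 := isBPP_of_code R (fun e => rd (u e)) (Φ O) e
      {x | QN M p n (u e) x (Φ O)} (fun x => (hΦ O).2 e x)
    rw [he] at h4
    refine ⟨_, isBPP_compl h4, ?_⟩
    rintro ⟨V, q, ⟨M', hM'⟩, hV⟩
    obtain ⟨i, hi⟩ := hal M'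
    obtain ⟨j, hj⟩ := hpl q
    have hMk : M (Nat.pair i j) = M' := by rw [hMd]; simp [hi]
    have hpk : p (Nat.pair i j) = q := by rw [hpd]; simp [hj]
    set k := Nat.pair i j with hk
    have h6 : QN M p n none (List.replicate (n k) true) (Φ O) ↔ ∃ w : List Bool,
        w.length ≤ q.eval (n k) ∧ V (pairBits w (List.replicate (n k) true)) = [true] := by
      constructor
      · rintro ⟨k', h7, w, hw, h8⟩
        have h9 : n k = n k' := by
          have := congrArg List.length h7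
          simpa using this
        have h10 := hn.injective h9
        rw [← h10, hpk] at hw
        rw [← h10, hMk, hM', Option.some.injEq] at h8
        exact ⟨w, hw, h8⟩
      · rintro ⟨w, hw, h8⟩
        refine ⟨k, rfl, w, by rw [hpk]; exact hw, ?_⟩
        rw [hMk, hM', h8]
    have h7 := hV (List.replicate (n k) true)
    rw [List.length_replicate] at h7
    rw [← h6] at h7
    have h8 : List.replicate (n k) true ∈ {x | QN M p n none x (Φ O)}ᶜ ↔
        ¬ QN M p n none (List.replicate (n k) true) (Φ O) := Iff.rfl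
    rw [h8] at h7
    tauto

/-- `BPP ⊄ NP` -/
theorem gauge_bpp_np (f : ℕ → ℝ) :
    Null f {A : Oracle | ∃ L, IsBPP3 A L ∧ ¬ IsNP A L} ↔ Cond1 f := by
  refine keyRP f _ (fun A hA => bpp_not_np hA) ?_
  rintro A ⟨L, h1, h2⟩
  exact ⟨L, isBPP_of_isBPP3 h1, fun h3 => h2 h3.isNP⟩

/-- `NP ⊆ BPP` -/
theorem gauge_np_bpp (f : ℕ → ℝ) :
    Null f {A : Oracle | ∀ L, IsNP A L → IsBPP3 A L} ↔ Cond f :=
  keyNE f _ (fun _ hA L hL => isBPP3_of_isBPP (hA L hL.isNEXP))
    (fun _ hA L hL => withAdvice_compl (isBPP_of_isBPP3 (hA L hL)))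

/-- `BPP` and `NP` are incomparable -/
theorem gauge_incomp (f : ℕ → ℝ) :
    Null f {A : Oracle | (∃ L, IsBPP3 A L ∧ ¬ IsNP A L) ∧ ∃ L, IsNP A L ∧ ¬ IsBPP3 A L} ↔
      Cond1 f := by
  constructor
  · intro hn
    by_contra hcon
    obtain ⟨f', h1, h2, h3⟩ := exists_minG hcon
    have h4 := Null_anti h1 hn
    have h5 := (gauge_np_bpp f').2 h3
    refine not_null_rp h2 _ ?_ (null_union h4 h5)
    intro A hA
    by_cases h6 : ∀ L, IsNP A L → IsBPP3 A L
    · exact Or.inr h6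
    · push Not at h6
      exact Or.inl ⟨bpp_not_np hA, h6⟩
  · intro hf
    exact ((gauge_bpp_np f).2 hf).mono fun A hA => hA.1

/-- `NP = BPP` -/
theorem gauge_eq (f : ℕ → ℝ) :
    Null f {A : Oracle | ∀ L, IsNP A L ↔ IsBPP3 A L} ↔ Cond f := by
  constructor
  · intro hn ε hε
    by_contra hcon
    rw [Filter.not_frequently] at hcon
    refine not_null f ε hε (hcon.mono fun N h => not_le.1 h) _ ?_ hn
    intro A h
    refine fun L => ⟨fun hL => ?_, fun hL => ?_⟩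
    · exact isBPP3_of_isBPP (isBPP_of_isP (isP_of_reduces (h L hL.isPSPACE)))
    · exact (isP_of_reduces (h L (isPSPACE_of_isBPP (isBPP_of_isBPP3 hL)))).isNP
  · intro hf
    exact ((gauge_np_bpp f).2 hf).mono fun A hA L hL => (hA L).1 hL

/-- `NP ⊊ BPP` -/
theorem gauge_ssub (f : ℕ → ℝ) :
    Null f {A : Oracle | (∀ L, IsNP A L → IsBPP3 A L) ∧ ∃ L, IsBPP3 A L ∧ ¬ IsNP A L} ↔
      Cond f := by
  constructor
  · intro hn
    by_contra hcon
    refine not_null_nx hcon _ ?_ hn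
    rintro A h1 ⟨L, h2, h3⟩
    exact ⟨fun L hL => isBPP3_of_isBPP (h1 L hL.isNEXP), L, isBPP3_of_isBPP h2, h3⟩
  · intro hf
    exact ((gauge_np_bpp f).2 hf).mono fun A hA => hA.1

/-- `P ≠ ZPP`, in a wide sense -/
theorem gauge_zpp_between (f : ℕ → ℝ) (X : Set Oracle)
    (h1 : ∀ A : Oracle, (∃ L, (IsRP A L ∧ IsRP A Lᶜ) ∧ ¬ IsP A L) → A ∈ X)
    (h2 : ∀ A ∈ X, ∃ L, IsBPP3 A L ∧ ¬ IsP A L) : Null f X ↔ Cond1 f := by
  refine keyZPP f X ?_ ?_
  · rintro A ⟨L, h3, h4⟩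
    exact h1 A ⟨L, ⟨isRP_of_isZPP h3, isRP_compl_of_isZPP h3⟩, h4⟩
  · intro A hA
    obtain ⟨L, h3, h4⟩ := h2 A hA
    exact ⟨L, isBPP_of_isBPP3 h3, h4⟩

/-- `P ≠ ZPP` -/
theorem gauge_zpp (f : ℕ → ℝ) :
    Null f {A : Oracle | ∃ L, (IsRP A L ∧ IsRP A Lᶜ) ∧ ¬ IsP A L} ↔ Cond1 f := by
  refine gauge_zpp_between f _ (fun A hA => hA) ?_
  rintro A ⟨L, ⟨h1, _⟩, h2⟩
  exact ⟨L, isBPP3_of_isBPP (isBPP_of_isRP h1), h2⟩

end Pool.Agent.TH683.GP
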