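import Pool.Agent.TH683.GP.Tasks
import Pool.Agent.H620R2.GaugeR.R8

/-!
# Gauges above every power of the logarithm infinitely often: not null sets
-/

set_option autoImplicit false

namespace Pool.Agent.TH683.GP

open Filter MeasureTheory
open Pool.Agent.NPC Pool.Agent.H622R2
open Pool.Agent.H620R2.Gauge hiding smp
open Pool.Agent.H628R3.RO (randomOracle)
open Pool.Agent.W900 Pool.Agent.W900.RB

theorem exists_nomark : ∃ N₀ : ℕ, 0 < ranO {O : Oracle | ∀ n ≥ N₀, ¬ Marked O n} := by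
  by_contra hcon
  push Not at hcon
  have h1 : ranO (⋃ N₀ : ℕ, {O : Oracle | ∀ n ≥ N₀, ¬ Marked O n}) = 0 :=
    measure_iUnion_null fun N => le_antisymm (hcon N) zero_le
  have h2 : ∀ᵐ O ∂ranO, ∀ᶠ n : ℕ in atTop, ¬ Marked O n := ae_marked
  have h3 : ∀ᵐ O ∂ranO, False := by
    have h4 : ∀ᵐ O ∂ranO, O ∉ ⋃ N₀ : ℕ, {O : Oracle | ∀ n ≥ N₀, ¬ Marked O n} :=
      measure_eq_zero_iff_ae_notMem.1 h1
    filter_upwards [h2, h4] with O h5 h6
    apply h6
    obtain ⟨N, hN⟩ := eventually_atTop.1 h5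
    exact Set.mem_iUnion.2 ⟨N, hN⟩
  rw [ae_iff] at h3
  simp at h3

theorem TSet_cost (P : Polynomial ℕ) (n : ℕ) : (TSet n (bs (P.eval n))).ncard ≤
    (Polynomial.C 2 * Polynomial.X + Polynomial.C 8 * P + Polynomial.C 4).eval n := by
  refine (TSet_card_bs n (P.eval n)).trans (le_of_eq ?_)
  simp

open Classical in
/-- Oracles with `RP ⊄ coNP`. -/
theorem not_null_rp {f : ℕ → ℝ} (hf : ¬ Cond1 f) (X : Set Oracle)
    (hX : ∀ A : Oracle, (∃ L, IsRP A L ∧ ¬ IsNP A Lᶜ) → A ∈ X) : ¬ Null f X := by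
  have hc := CC.poly_countable
  obtain ⟨al, hal⟩ := exists_alg
  obtain ⟨pl, hpl⟩ := exists_surjective_nat (Polynomial ℕ)
  obtain ⟨N₀, hN₀⟩ := exists_nomark
  set M : ℕ → Alg := fun k => al (Nat.unpair k).1 with hMd
  set p : ℕ → Polynomial ℕ := fun k => pl (Nat.unpair k).2 with hpd
  obtain ⟨n, Φ, c, h1, h2, h3, h4, h5⟩ := ustages hf (fun k n A => WR (M k) (p k) n A)
    (fun k n => TSet n (bs (((M k).p.comp (cl (p k))).eval n)))
    (fun k => Polynomial.C 2 * Polynomial.X + Polynomial.C 8 * (M k).p.comp (cl (p k)) +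
      Polynomial.C 4)
    (fun k => (SP.out_local (M k)).choose.comp (cl (p k)) + Polynomial.C 3 * Polynomial.X +
      Polynomial.C 3) N₀ (fun k n => TSet_region _ _) (fun k n => TSet_finite _ _)
    (fun k => Eventually.of_forall fun n => TSet_cost _ n) (fun k => taskR' (M k) (p k))
  refine not_null_of f {O : Oracle | ∀ n ≥ N₀, ¬ Marked O n} hN₀ Φ
    {y | ∃ k, y ∈ TSet (n k) (bs (((M k).p.comp (cl (p k))).eval (n k)))}
    (fun B y hy => h3 B y (fun k hk => hy ⟨k, hk⟩)) c (h4 _ (fun y hy => hy)) X ?_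
  intro O hO
  apply hX
  obtain ⟨L, hL, hd⟩ := isRP_of_stage h1 h2 (h5 O) (by
    intro m hm hk hmark
    apply hO m hm
    intro j hj
    rw [← h3 O]
    · exact hmark j hj
    · intro k hr
      exact hk k (region_inj (reg_mem m _) (TSet_region _ _ hr)))
  refine ⟨L, hL, ?_⟩
  rintro ⟨V, q, ⟨M', hM'⟩, hV⟩
  obtain ⟨i, hi⟩ := hal M'
  obtain ⟨j, hj⟩ := hpl q
  have hMk : M (Nat.pair i j) = M' := by rw [hMd]; simp [hi]
  have hpk : p (Nat.pair i j) = q := by rw [hpd]; simp [hj]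
  set k := Nat.pair i j with hk
  have h6 := hd k
  have h7 := hV (List.replicate (n k) true)
  rw [List.length_replicate] at h7
  simp only [hMk, hpk, hM', Option.some.injEq] at h6
  rw [← h7, Set.mem_compl_iff] at h6
  tauto

open Classical in
/-- Oracles with `P ≠ ZPP`. -/
theorem not_null_zpp {f : ℕ → ℝ} (hf : ¬ Cond1 f) (X : Set Oracle)
    (hX : ∀ A : Oracle, (∃ L, IsZPP A L ∧ ¬ IsP A L) → A ∈ X) : ¬ Null f X := by
  obtain ⟨al, hal⟩ := exists_alg
  obtain ⟨N₀, hN₀⟩ := exists_nomark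
  obtain ⟨n, Φ, c, h1, h2, h3, h4, h5⟩ := ustages hf (fun k n A => WZ (al k) n A)
    (fun k n => TSet n (bs ((al k).p.eval n)))
    (fun k => Polynomial.C 2 * Polynomial.X + Polynomial.C 8 * (al k).p + Polynomial.C 4)
    (fun k => (SP.out_local (al k)).choose + Polynomial.C 3 * Polynomial.X + Polynomial.C 3) N₀
    (fun k n => TSet_region _ _) (fun k n => TSet_finite _ _)
    (fun k => Eventually.of_forall fun n => TSet_cost _ n) (fun k => taskZ' (al k))
  refine not_null_of f {O : Oracle | ∀ n ≥ N₀, ¬ Marked O n} hN₀ Φ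
    {y | ∃ k, y ∈ TSet (n k) (bs ((al k).p.eval (n k)))}
    (fun B y hy => h3 B y (fun k hk => hy ⟨k, hk⟩)) c (h4 _ (fun y hy => hy)) X ?_
  intro O hO
  apply hX
  obtain ⟨L, hL, hd⟩ := isZPP_of_stage h1 h2 (h5 O) (by
    intro m hm hk hmark
    apply hO m hm
    intro j hj
    rw [← h3 O]
    · exact hmark j hj
    · intro k hr
      exact hk k (region_inj (reg_mem m _) (TSet_region _ _ hr)))
  refine ⟨L, hL, ?_⟩
  rintro ⟨V, ⟨M, hM⟩, hV⟩
  obtain ⟨k, rfl⟩ := hal M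
  have h6 := hd k
  rw [hV, hM, ne_eq, Option.some.injEq] at h6
  by_cases h7 : V (List.replicate (n k) true) = [true]
  · exact (h6.1 h7) h7
  · exact h7 (h6.2 h7)

end Pool.Agent.TH683.GP
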