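import Pool.Agent.W900.RB.Stage
import Pool.Agent.H620R2.GaugeR.Base

/-!
# Stage constructions with a fixed set of changed strings
-/

set_option autoImplicit false

namespace Pool.Agent.TH683.GP

open Filter
open Pool.Agent.NPC Pool.Agent.H622R2
open Pool.Agent.H620R2.Gauge hiding smp
open Pool.Agent.W900.RB

theorem tendsto_log : Tendsto (Nat.log 2) atTop atTop := by
  rw [tendsto_atTop_atTop]
  intro b
  exact ⟨2 ^ b, fun a ha => Nat.le_log_of_pow_le (by norm_num) ha⟩

theorem idx_ge {y : List Bool} {n : ℕ} (h : n < y.length) : 2 ^ (n + 1) ≤ idx y + 1 := by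
  have h1 : 2 ^ y.length ≤ idx y + 1 := by
    by_contra hcon
    push Not at hcon
    have h2 := W900.CH.length_str_le_log (i := idx y) (N := idx y + 1) (Nat.lt_succ_self _)
    rw [str_idx] at h2
    have h3 : Nat.log 2 (idx y + 1) < y.length := Nat.log_lt_of_lt_pow (by omega) hcon
    omega
  exact (Nat.pow_le_pow_right (by norm_num) (by omega)).trans h1

theorem ustages {f : ℕ → ℝ} (hf : ¬ Cond1 f) (W : ℕ → ℕ → Oracle → Prop)
    (TS : ℕ → ℕ → Set (List Bool)) (cost b : ℕ → Polynomial ℕ) (N₀ : ℕ)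
    (hTS : ∀ k n, TS k n ⊆ Region n) (hTf : ∀ k n, (TS k n).Finite)
    (hTc : ∀ k, ∀ᶠ n : ℕ in atTop, (TS k n).ncard ≤ (cost k).eval n)
    (hW : ∀ k, ∀ᶠ n : ℕ in atTop, ∀ B : Oracle, ∃ B' : Oracle, (∀ y ∉ TS k n, B' y = B y) ∧
      ∀ B'' : Oracle, (∀ y : List Bool, y.length ≤ (b k).eval n → B'' y = B' y) → W k n B'') :
    ∃ (n : ℕ → ℕ) (Φ : Oracle → Oracle) (c : ℝ), StrictMono n ∧ (∀ k, N₀ ≤ n k) ∧
      (∀ B y, (∀ k, y ∉ TS k (n k)) → Φ B y = B y) ∧
      (∀ (T : Set (List Bool)) [DecidablePred (fun i : ℕ => str i ∈ T)],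
        (∀ y ∈ T, ∃ k, y ∈ TS k (n k)) →
        ∀ N : ℕ, (((Finset.range N).filter (fun i => str i ∈ T)).card : ℝ) ≤ f N + c) ∧
      ∀ B k, W k (n k) (Φ B) := by
  classical
  have hf' : ∀ C : ℕ, ∃ᶠ N : ℕ in atTop, ∀ N' ≥ N, (Real.logb 2 N) ^ C < f N' := by
    unfold Cond1 at hf
    push Not at hf
    exact hf
  have hstep : ∀ (k N T : ℕ), ∃ n : ℕ, N ≤ n ∧ (TS k n).ncard ≤ (cost k).eval n ∧
      (∀ B : Oracle, ∃ B' : Oracle, (∀ y ∉ TS k n, B' y = B y) ∧
        ∀ B'' : Oracle, (∀ y : List Bool, y.length ≤ (b k).eval n → B'' y = B' y) →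
          W k n B'') ∧
      ∀ m : ℕ, 2 ^ (n + 1) ≤ m + 1 → ((T + (cost k).eval n : ℕ) : ℝ) ≤ f m := by
    intro k N T
    have h1 : ∀ᶠ n : ℕ in atTop, T + (cost k).eval n ≤ n ^ ((cost k).natDegree + 1) := by
      have h2 : ∀ᶠ n : ℕ in atTop, T + (cost k).eval 1 ≤ n := eventually_ge_atTop _
      filter_upwards [h2, eventually_ge_atTop 1] with n h3 h4
      have h5 : (cost k).eval n ≤ (cost k).eval 1 * n ^ (cost k).natDegree := by
        rw [Polynomial.eval_eq_sum_range, Polynomial.eval_eq_sum_range, Finset.sum_mul]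
        apply Finset.sum_le_sum
        intro i hi
        rw [one_pow, mul_one]
        apply Nat.mul_le_mul_left
        exact Nat.pow_le_pow_right h4 (by have := Finset.mem_range.1 hi; omega)
      have h6 : 1 ≤ n ^ (cost k).natDegree := Nat.one_le_pow _ _ h4
      calc T + (cost k).eval n ≤ T * n ^ (cost k).natDegree +
            (cost k).eval 1 * n ^ (cost k).natDegree :=
            Nat.add_le_add (Nat.le_mul_of_pos_right _ h6) h5
        _ = (T + (cost k).eval 1) * n ^ (cost k).natDegree := by ring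
        _ ≤ n * n ^ (cost k).natDegree := Nat.mul_le_mul_right _ h3
        _ = n ^ ((cost k).natDegree + 1) := by ring
    have h2 := tendsto_log.eventually (h1.and ((hTc k).and ((hW k).and (eventually_ge_atTop N))))
    obtain ⟨M, h3, ⟨h4, h5, h6, h7⟩, hM⟩ := ((hf' ((cost k).natDegree + 1)).and_eventually
      (h2.and (eventually_ge_atTop 1))).exists
    refine ⟨Nat.log 2 M, h7, h5, h6, fun m hm => ?_⟩
    have h8 : M < 2 ^ (Nat.log 2 M + 1) := Nat.lt_pow_succ_log_self (by norm_num) _
    refine le_trans ?_ (h3 m (by omega)).le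
    have h9 : (Nat.log 2 M : ℝ) ≤ Real.logb 2 M := Real.natLog_le_logb M 2
    calc ((T + (cost k).eval (Nat.log 2 M) : ℕ) : ℝ) ≤
          ((Nat.log 2 M ^ ((cost k).natDegree + 1) : ℕ) : ℝ) := by exact_mod_cast h4
      _ = (Nat.log 2 M : ℝ) ^ ((cost k).natDegree + 1) := by push_cast; rfl
      _ ≤ (Real.logb 2 M) ^ ((cost k).natDegree + 1) := by gcongr
  choose ns h1 h2 h3 h6 using hstep
  -- the states: the bound for the next number, the number of changes
  let F : ℕ → ℕ × ℕ := fun k => Nat.rec (N₀, 0) (fun k s =>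
    (max (ns k s.1 s.2 + 1) ((b k).eval (ns k s.1 s.2) + 1),
      s.2 + (cost k).eval (ns k s.1 s.2))) k
  let n : ℕ → ℕ := fun k => ns k (F k).1 (F k).2
  have hF2 : ∀ k, (F (k + 1)).1 = max (n k + 1) ((b k).eval (n k) + 1) := fun k => rfl
  have hF3 : ∀ k, (F (k + 1)).2 = (F k).2 + (cost k).eval (n k) := fun k => rfl
  have hnN : ∀ k, (F k).1 ≤ n k := fun k => h1 _ _ _
  have hn2 : ∀ k, (TS k (n k)).ncard ≤ (cost k).eval (n k) := fun k => h2 _ _ _
  have hn3 : ∀ k, ∀ B : Oracle, ∃ B' : Oracle, (∀ y ∉ TS k (n k), B' y = B y) ∧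
        ∀ B'' : Oracle, (∀ y : List Bool, y.length ≤ (b k).eval (n k) → B'' y = B' y) →
          W k (n k) B'' := fun k => h3 _ _ _
  have hn6 : ∀ k, ∀ m : ℕ, 2 ^ (n k + 1) ≤ m + 1 → ((F (k + 1)).2 : ℝ) ≤ f m :=
    fun k m hm => h6 k (F k).1 (F k).2 m hm
  choose Bs h4 h5 using hn3
  have hlt : ∀ k, n k < n (k + 1) := by
    intro k
    have := hnN (k + 1)
    rw [hF2] at this
    have := le_max_left (n k + 1) ((b k).eval (n k) + 1)
    omega
  have hmono : StrictMono n := strictMono_nat_of_lt_succ hlt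
  have hid : ∀ k, k ≤ n k := fun k => hmono.le_apply
  let G : Oracle → ℕ → Oracle := fun B k => Nat.rec B (fun k s => Bs k s) k
  have hG0 : ∀ B, G B 0 = B := fun B => rfl
  have hG1 : ∀ B k, G B (k + 1) = Bs k (G B k) := fun B k => rfl
  -- later oracles agree on short strings
  have hagree1 : ∀ (B : Oracle) (j : ℕ) (y : List Bool), y.length ≤ n j →
      G B (j + 1) y = G B j y := by
    intro B j y hy
    rw [hG1]
    apply h4
    intro hr
    have := region_len (hTS _ _ hr)
    omega
  have hagree : ∀ (B : Oracle) (j i : ℕ) (y : List Bool), y.length ≤ n j →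
      G B (j + i) y = G B j y := by
    intro B j i y hy
    induction i with
    | zero => rfl
    | succ i ih =>
      rw [← ih, ← add_assoc]
      apply hagree1
      exact hy.trans (hmono.monotone (Nat.le_add_right j i))
  set Φ : Oracle → Oracle := fun B y => G B y.length y with hΦ
  have hAj : ∀ (B : Oracle) (j : ℕ) (y : List Bool), y.length ≤ n j → Φ B y = G B j y := by
    intro B j y hy
    rw [hΦ]
    dsimp only
    rcases le_total y.length j with h | h
    · obtain ⟨i, hi⟩ := Nat.exists_eq_add_of_le h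
      rw [hi]
      exact (hagree B y.length i y (hid _)).symm
    · obtain ⟨i, hi⟩ := Nat.exists_eq_add_of_le h
      rw [hi]
      exact hagree B j i y hy
  refine ⟨n, Φ, ∑ i ∈ Finset.range (2 ^ (n 0 + 1)), |f i|, hmono, ?_, ?_, ?_, ?_⟩
  · intro k
    have h7 : N₀ ≤ n 0 := hnN 0
    exact h7.trans (hmono.monotone (Nat.zero_le k))
  · intro B y hy
    have h7 : ∀ j, G B j y = B y := by
      intro j
      induction j with
      | zero => rfl
      | succ j ih =>
        rw [← ih, hG1]
        exact h4 _ _ y (hy j)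
    exact h7 _
  · intro T _ hT N
    have hsum : (0 : ℝ) ≤ ∑ i ∈ Finset.range (2 ^ (n 0 + 1)), |f i| :=
      Finset.sum_nonneg fun i _ => abs_nonneg _
    have hex : ∃ k, N + 1 ≤ 2 ^ (n k + 1) := by
      refine ⟨N, ?_⟩
      have h7 : N + 1 < 2 ^ (N + 1) := Nat.lt_two_pow_self
      exact h7.le.trans (Nat.pow_le_pow_right (by norm_num) (by have := hid N; omega))
    set K := Nat.find hex with hK
    have hKspec : N + 1 ≤ 2 ^ (n K + 1) := Nat.find_spec hex
    have hKmin : ∀ j < K, 2 ^ (n j + 1) < N + 1 := fun j hj => not_le.1 (Nat.find_min hex hj)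
    have hcard : ((Finset.range N).filter (fun i => str i ∈ T)).card ≤ (F K).2 := by
      have hcov : ∀ i ∈ (Finset.range N).filter (fun i => str i ∈ T),
          ∃ j < K, str i ∈ TS j (n j) := by
        intro i hi
        rw [Finset.mem_filter, Finset.mem_range] at hi
        obtain ⟨j, hj⟩ := hT _ hi.2
        refine ⟨j, ?_, hj⟩
        by_contra hcon
        rw [not_lt] at hcon
        have h7 := idx_ge (region_len (hTS _ _ hj))
        rw [idx_str] at h7
        have h8 : 2 ^ (n K + 1) ≤ 2 ^ (n j + 1) :=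
          Nat.pow_le_pow_right (by norm_num) (by have := hmono.monotone hcon; omega)
        omega
      have hF : ∀ k, ∑ j ∈ Finset.range k, (TS j (n j)).ncard ≤ (F k).2 := by
        intro k
        induction k with
        | zero => simp
        | succ k ih =>
          rw [Finset.sum_range_succ, hF3]
          exact Nat.add_le_add ih (hn2 k)
      refine le_trans ?_ (hF K)
      have h7 : (Finset.range N).filter (fun i => str i ∈ T) ⊆
          (Finset.range K).biUnion (fun j => ((hTf j (n j)).toFinset).image idx) := by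
        intro i hi
        obtain ⟨j, hj, h8⟩ := hcov i hi
        rw [Finset.mem_biUnion]
        refine ⟨j, Finset.mem_range.2 hj, ?_⟩
        rw [Finset.mem_image]
        exact ⟨str i, (Set.Finite.mem_toFinset _).2 h8, idx_str i⟩
      refine (Finset.card_le_card h7).trans (Finset.card_biUnion_le.trans ?_)
      refine Finset.sum_le_sum fun j _ => ?_
      refine Finset.card_image_le.trans (le_of_eq ?_)
      rw [Set.ncard_eq_toFinset_card _ (hTf j (n j))]
    rcases Nat.eq_zero_or_pos K with h7 | h7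
    · have h8 : (F K).2 = 0 := by
        rw [h7]
        rfl
      rw [h8] at hcard
      have h9 : ((Finset.range N).filter (fun i => str i ∈ T)).card = 0 := by omega
      rw [h9]
      rw [h7] at hKspec
      have h10 : |f N| ≤ ∑ i ∈ Finset.range (2 ^ (n 0 + 1)), |f i| :=
        Finset.single_le_sum (f := fun i => |f i|) (fun i _ => abs_nonneg _)
          (Finset.mem_range.2 hKspec)
      have h11 := neg_abs_le (f N)
      push_cast
      linarith
    · obtain ⟨j, hj⟩ := Nat.exists_eq_succ_of_ne_zero h7.ne'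
      have h8 := hn6 j N (hKmin j (by omega)).le
      have h9 : (((Finset.range N).filter (fun i => str i ∈ T)).card : ℝ) ≤ ((F K).2 : ℝ) := by
        exact_mod_cast hcard
      rw [hj] at h9
      exact h9.trans (h8.trans (by linarith))
  · intro B k
    apply h5 k (G B k)
    intro y hy
    have h7 : y.length ≤ n (k + 1) := by
      have h8 := hnN (k + 1)
      rw [hF2] at h8
      have h9 := le_max_right (n k + 1) ((b k).eval (n k) + 1)
      omega
    rw [hAj B (k + 1) y h7]

end Pool.Agent.TH683.GP
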