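import Pool.Agent.TH683.GP.Stages
import Pool.Agent.W900.RB.RFin

/-!
# The tasks for the separation of `RP` and `coNP`, and of `P` and `ZPP`
-/

set_option autoImplicit false

namespace Pool.Agent.TH683.GP

open Filter MeasureTheory
open Pool.Agent.NPC Pool.Agent.H622R2
open Pool.Agent.H620R2.Gauge hiding smp
open Pool.Agent.H628R3.RO (randomOracle)
open Pool.Agent.W900 Pool.Agent.W900.RB

/-- the strings which may be changed: the marker and the block -/
def TSet (n r : ℕ) : Set (List Bool) :=
  (fun j => mk n j) '' (Set.Iio (2 * n)) ∪
    (fun s : Bool × (Fin r → Bool) => ps n s.1 (List.ofFn s.2)) '' Set.univ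

theorem setR_TSet (B : Oracle) (n r : ℕ) (f : Bool → List Bool → Bool) {y : List Bool}
    (hy : y ∉ TSet n r) : setR B n r f y = B y := by
  by_contra hcon
  exact hy (setR_diff B n r f (fun h => hcon h.symm))

theorem TSet_region (n r : ℕ) : TSet n r ⊆ Region n := by
  rintro y (⟨j, -, rfl⟩ | ⟨s, -, rfl⟩)
  · exact reg_mem _ _
  · exact reg_mem _ _

theorem TSet_finite (n r : ℕ) : (TSet n r).Finite :=
  ((Set.finite_Iio _).image _).union (Set.finite_univ.image _)

theorem TSet_card (n r : ℕ) : (TSet n r).ncard ≤ 2 * n + 2 * 2 ^ r := by
  unfold TSet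
  refine (Set.ncard_union_le _ _).trans (Nat.add_le_add ?_ ?_)
  · refine (Set.ncard_image_le (Set.finite_Iio _)).trans (le_of_eq ?_)
    rw [← Finset.coe_Iio, Set.ncard_coe_finset, Nat.card_Iio]
  · refine (Set.ncard_image_le Set.finite_univ).trans (le_of_eq ?_)
    rw [Set.ncard_univ, Nat.card_eq_fintype_card, Fintype.card_prod, Fintype.card_bool,
      Fintype.card_fun, Fintype.card_bool, Fintype.card_fin]

theorem TSet_card_bs (n P : ℕ) : (TSet n (bs P)).ncard ≤ 2 * n + 8 * P + 4 := by
  have h1 := TSet_card n (bs P)
  have h2 := bs_le P
  omega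

open Classical in
theorem taskR' (M : Alg) (p : Polynomial ℕ) : ∀ᶠ n : ℕ in atTop, ∀ B : Oracle, ∃ B' : Oracle,
    (∀ y ∉ TSet n (bs ((M.p.comp (cl p)).eval n)), B' y = B y) ∧
    ∀ B'' : Oracle, (∀ y : List Bool, y.length ≤ ((SP.out_local M).choose.comp (cl p) +
      Polynomial.C 3 * Polynomial.X + Polynomial.C 3).eval n → B'' y = B' y) →
        WR M p n B'' := by
  filter_upwards [bs_lt_n (M.p.comp (cl p))] with n hn B
  set P := (M.p.comp (cl p)).eval n with hP
  have hPe : P = M.p.eval ((cl p).eval n) := by rw [hP, Polynomial.eval_comp]
  set r := bs P with hr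
  set x := List.replicate n true with hx
  have hxl : x.length = n := by simp [hx]
  have hev : ((SP.out_local M).choose.comp (cl p) + Polynomial.C 3 * Polynomial.X +
      Polynomial.C 3).eval n = (SP.out_local M).choose.eval ((cl p).eval n) + 3 * n + 3 := by
    simp
  have hloc : ∀ (f : Bool → List Bool → Bool) (B'' : Oracle), (∀ y : List Bool, y.length ≤
      ((SP.out_local M).choose.comp (cl p) + Polynomial.C 3 * Polynomial.X +
        Polynomial.C 3).eval n → B'' y = setR B n r f y) →
      Marked B'' n ∧ rr B'' n = r ∧
      (∀ (c : Bool) (w : List Bool), w.length = r → B'' (ps n c w) = f c w) ∧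
      ∀ w : List Bool, w.length ≤ p.eval n →
        M.out B'' (pairBits w x) = M.out (setR B n r f) (pairBits w x) := by
    intro f B'' hB''
    rw [hev] at hB''
    obtain ⟨h1, h2⟩ := reg_congr (A := B'') (A' := setR B n r f) hn.le
      (fun y hy => hB'' y (by omega))
    refine ⟨(marked_congr h1).2 (marked_setR B n r f), (rr_congr h1).trans (rr_setR B f hn.le),
      fun c w hw => by rw [h2 c w hw, setR_ps B f c hw], fun w hw => ?_⟩
    apply (SP.out_local M).choose_spec
    intro y hy
    have h3 := eval_mono (SP.out_local M).choose (len_cert hw hxl)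
    exact hB'' y (by omega)
  set f0 : Bool → List Bool → Bool := fun _ _ => false with hf0
  by_cases hacc : ∃ w : List Bool, w.length ≤ p.eval n ∧
      M.out (setR B n r f0) (pairBits w x) = some [true]
  · obtain ⟨w0, hw0, hw0'⟩ := hacc
    obtain ⟨U, hU, hrun⟩ := run_local M (setR B n r f0) (pairBits w0 x)
      (M.p.eval (pairBits w0 x).length) []
    have hUP : U.card ≤ P := by
      rw [hPe]
      exact hU.trans (eval_mono _ (len_cert hw0 hxl))
    set good : List Bool → Prop := fun w => ps n false w ∉ U ∧ ps n true w ∉ U with hgood
    set f : Bool → List Bool → Bool := fun _ w => decide (good w) with hf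
    have hUeq : ∀ u ∈ U, setR B n r f u = setR B n r f0 u := by
      intro u hu
      by_cases h : u ∈ Region n
      · obtain ⟨z, rfl⟩ := h
        change setR B n r f (reg n z) = setR B n r f0 (reg n z)
        rw [setR_reg, setR_reg]
        rcases z with _ | ⟨_ | _, z⟩
        · rfl
        · rfl
        · rcases z with _ | ⟨c, w⟩
          · rfl
          · rw [cont_true, cont_true]
            by_cases h1 : w.length = r
            · rw [if_pos h1, if_pos h1]
              have hng : ¬ good w := by
                rw [hgood]
                rintro ⟨h2, h3⟩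
                cases c
                · exact h2 hu
                · exact h3 hu
              rw [hf, hf0]
              simp [hng]
            · rw [if_neg h1, if_neg h1]
      · rw [setR_off _ _ _ _ _ h, setR_off _ _ _ _ _ h]
    have hout : M.out (setR B n r f) (pairBits w0 x) = some [true] :=
      (hrun _ hUeq).trans hw0'
    refine ⟨setR B n r f, fun y hy => setR_TSet B n r f hy, ?_⟩
    intro B'' hB''
    obtain ⟨h1, h2, h3, h4⟩ := hloc f B'' hB''
    refine ⟨r, true, hn, h1, h2, fun h => absurd h (by simp), fun _ => ?_, ?_⟩
    · have h5 : Nat.card {w : Fin r → Bool // ¬ Both B'' n (List.ofFn w)} ≤ U.card := by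
        rw [Nat.card_eq_fintype_card, Fintype.card_subtype]
        refine Finset.card_le_card_of_injOn (fun w : Fin r → Bool =>
          if ps n false (List.ofFn w) ∈ U then ps n false (List.ofFn w)
          else ps n true (List.ofFn w)) ?_ ?_
        · intro w hw
          rw [Finset.mem_coe, Finset.mem_filter] at hw
          have h5 := hw.2
          unfold Both at h5
          rw [h3 _ _ (by simp), h3 _ _ (by simp), hf] at h5
          simp only [decide_eq_true_eq, and_self] at h5
          dsimp only
          split_ifs with h6
          · exact h6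
          · by_contra h7
            exact h5 ⟨h6, h7⟩
        · intro w _ w' _ h
          dsimp only at h
          have h6 : List.ofFn w = List.ofFn w' := by
            split_ifs at h
            · exact (ps_inj h).2
            · exact (ps_inj h).2
            · exact (ps_inj h).2
            · exact (ps_inj h).2
          exact List.ofFn_injective h6
      have h6 := lt_bs P
      rw [← hr] at h6
      omega
    · refine ⟨fun _ => ⟨w0, hw0, ?_⟩, fun _ => rfl⟩
      rw [h4 w0 hw0]
      exact hout
  · refine ⟨setR B n r f0, fun y hy => setR_TSet B n r f0 hy, ?_⟩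
    intro B'' hB''
    obtain ⟨h1, h2, h3, h4⟩ := hloc f0 B'' hB''
    refine ⟨r, false, hn, h1, h2, fun _ w hw => ?_, fun h => absurd h (by simp), ?_⟩
    · rintro ⟨h5, _⟩
      rw [h3 _ _ hw, hf0] at h5
      simp at h5
    · refine ⟨fun h => absurd h (by simp), ?_⟩
      rintro ⟨w, hw, h5⟩
      rw [h4 w hw] at h5
      exact absurd ⟨w, hw, h5⟩ hacc

open Classical in
theorem taskZ' (M : Alg) : ∀ᶠ n : ℕ in atTop, ∀ B : Oracle, ∃ B' : Oracle,
    (∀ y ∉ TSet n (bs (M.p.eval n)), B' y = B y) ∧
    ∀ B'' : Oracle, (∀ y : List Bool, y.length ≤ ((SP.out_local M).choose + Polynomial.C 3 *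
      Polynomial.X + Polynomial.C 3).eval n → B'' y = B' y) → WZ M n B'' := by
  filter_upwards [bs_lt_n M.p] with n hn B
  set r := bs (M.p.eval n) with hr
  set x := List.replicate n true with hx
  have hxl : x.length = n := by simp [hx]
  set B0 : Oracle := setR B n r (fun c w => if c = true then B (ps n true w) else false) with hB0
  obtain ⟨U, hU, hrun⟩ := run_local M B0 x (M.p.eval x.length) []
  rw [hxl] at hU
  set good : List Bool → Prop := fun w => ps n false w ∉ U ∧ ps n true w ∉ U with hgood
  set b : Bool := decide (M.out B0 x ≠ some [true]) with hb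
  set f : Bool → List Bool → Bool := fun c w =>
    if c = true then (if good w then b else B (ps n true w)) else decide (good w) with hf
  have hUeq : ∀ u ∈ U, setR B n r f u = B0 u := by
    intro u hu
    by_cases h : u ∈ Region n
    · obtain ⟨z, rfl⟩ := h
      change setR B n r f (reg n z) = B0 (reg n z)
      rw [hB0, setR_reg, setR_reg]
      rcases z with _ | ⟨_ | _, z⟩
      · rfl
      · rfl
      · rcases z with _ | ⟨c, w⟩
        · rfl
        · rw [cont_true, cont_true]
          by_cases h1 : w.length = r
          · rw [if_pos h1, if_pos h1]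
            have hng : ¬ good w := by
              rw [hgood]
              rintro ⟨h2, h3⟩
              cases c
              · exact h2 hu
              · exact h3 hu
            rw [hf]
            dsimp only
            cases c
            · simp [hng]
            · simp [hng]
          · rw [if_neg h1, if_neg h1]
    · rw [setR_off _ _ _ _ _ h, hB0, setR_off _ _ _ _ _ h]
  have hout : M.out (setR B n r f) x = M.out B0 x := hrun _ hUeq
  refine ⟨setR B n r f, fun y hy => setR_TSet B n r f hy, ?_⟩
  · intro B'' hB''
    have hev : ((SP.out_local M).choose + Polynomial.C 3 * Polynomial.X + Polynomial.C 3).eval n =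
        (SP.out_local M).choose.eval n + 3 * n + 3 := by simp
    rw [hev] at hB''
    obtain ⟨h1, h2⟩ := reg_congr (A := B'') (A' := setR B n r f) hn.le
      (fun y hy => hB'' y (by omega))
    have h3 : M.out B'' x = M.out (setR B n r f) x := by
      apply (SP.out_local M).choose_spec
      intro y hy
      rw [hxl] at hy
      exact hB'' y (by omega)
    refine ⟨r, b, hn, (marked_congr h1).2 (marked_setR B n r f),
      (rr_congr h1).trans (rr_setR B f hn.le), ?_, ?_, ?_⟩
    · intro w hw h4
      rw [h2 _ w hw, setR_ps B f _ hw] at h4 ⊢
      rw [hf] at h4 ⊢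
      simp only [Bool.false_eq_true, if_false, decide_eq_true_eq] at h4
      simp only [if_true, if_pos h4]
    · have h4 : Nat.card {w : Fin r → Bool // B'' (ps n false (List.ofFn w)) = false} ≤ U.card := by
        rw [Nat.card_eq_fintype_card, Fintype.card_subtype]
        refine Finset.card_le_card_of_injOn (fun w : Fin r → Bool =>
          if ps n false (List.ofFn w) ∈ U then ps n false (List.ofFn w)
          else ps n true (List.ofFn w)) ?_ ?_
        · intro w hw
          rw [Finset.mem_coe, Finset.mem_filter] at hw
          have h5 := hw.2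
          rw [h2 _ _ (by simp), setR_ps B f _ (by simp), hf] at h5
          simp only [Bool.false_eq_true, if_false, decide_eq_false_iff_not] at h5
          dsimp only
          split_ifs with h6
          · exact h6
          · by_contra h7
            exact h5 ⟨h6, h7⟩
        · intro w _ w' _ h
          dsimp only at h
          have h6 : List.ofFn w = List.ofFn w' := by
            split_ifs at h
            · exact (ps_inj h).2
            · exact (ps_inj h).2
            · exact (ps_inj h).2
            · exact (ps_inj h).2
          exact List.ofFn_injective h6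
      have h5 := lt_bs (M.p.eval n)
      rw [← hr] at h5
      omega
    · rw [h3, hout, hb, decide_eq_true_eq]


end Pool.Agent.TH683.GP
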